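import Pool.Agent.Y554.NE.Stm

/-!
# NE-START and NE-MERGE: union of two separated sets
-/

set_option autoImplicit false
set_option maxHeartbeats 400000

namespace Pool.Agent.Y430.NE

open H974 H12S Finset Pool.Agent.Y554.SN Pool.Agent.Y554.NE

/-! ### distances -/

theorem ds_comm (e f : Edg) : ds e f = ds f e := by
  unfold ds
  omega

theorem ds_tri (e f g : Edg) : ds e g ≤ ds e f + ds f g := by
  unfold ds
  omega

theorem ds_self (e : Edg) : ds e e = 0 := by
  unfold ds
  omega

theorem ds_le_dm {S : Finset Edg} {v w : Edg} (hv : v ∈ S) (hw : w ∈ S) : ds v w ≤ dm S := by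
  unfold dm
  exact (Finset.le_sup (f := fun b => ds v b) hw).trans
    (Finset.le_sup (f := fun a => S.sup (fun b => ds a b)) hv)

theorem dm_le {S : Finset Edg} {X : ℕ} (h : ∀ v ∈ S, ∀ w ∈ S, ds v w ≤ X) : dm S ≤ X := by
  unfold dm
  exact Finset.sup_le fun v hv => Finset.sup_le fun w hw => h v hv w hw

theorem dm_mono {S S' : Finset Edg} (h : S ⊆ S') : dm S ≤ dm S' :=
  dm_le fun _ hv _ hw => ds_le_dm (h hv) (h hw)

theorem ds_of_blk {e f : Edg} {s : ℕ} (h : f ∈ blk (pos e) s) : ds f e ≤ s := by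
  obtain ⟨x, y, b⟩ := f
  unfold blk pos at h
  unfold ds
  cases b
  · rw [mem_RE_false] at h
    simp only at h ⊢
    omega
  · rw [mem_RE_true] at h
    simp only at h ⊢
    omega

theorem ds_of_nb {S : Finset Edg} {f : Edg} {s : ℕ} (h : f ∈ nb S s) : ∃ v ∈ S, ds f v ≤ s := by
  unfold nb at h
  obtain ⟨v, hv, hf⟩ := Finset.mem_biUnion.1 h
  exact ⟨v, hv, ds_of_blk hf⟩

theorem box_abs {n : ℕ} {e : Edg} (h : e ∈ boxE n) : |(pos e).1| ≤ n ∧ |(pos e).2| ≤ n := by
  obtain ⟨x, y, b⟩ := e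
  unfold boxE at h
  unfold pos
  cases b
  · rw [mem_RE_false] at h
    simp only
    rw [abs_le, abs_le]
    omega
  · rw [mem_RE_true] at h
    simp only
    rw [abs_le, abs_le]
    omega

theorem pos_sub (e f : Edg) : |(pos e).1 - (pos f).1| ≤ ds e f ∧ |(pos e).2 - (pos f).2| ≤ ds e f := by
  unfold pos ds
  simp only
  rw [abs_le, abs_le]
  omega

/-! ### the function `psi` -/

theorem cap_pos (n s : ℕ) : 1 ≤ cap n s := le_max_left _ _

theorem cap_mono {n s s' : ℕ} (h : s ≤ s') : cap n s ≤ cap n s' := by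
  unfold cap
  omega

theorem cap_mul {n s s' M : ℕ} (hM : 1 ≤ M) (h : s' ≤ M * max 1 s) : cap n s' ≤ M * cap n s := by
  unfold cap
  have h1 : max 1 (min s' n) ≤ M * max 1 (min s n) := by
    have h3 : M * 1 ≤ M * max 1 (min s n) := Nat.mul_le_mul_left _ (le_max_left _ _)
    refine max_le (by omega) ?_
    rcases le_total s n with h2 | h2
    · rw [min_eq_left h2]
      exact (min_le_left _ _).trans h
    · rw [min_eq_right h2]
      refine (min_le_right _ _).trans ?_
      calc n ≤ max 1 n := le_max_right _ _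
        _ = 1 * max 1 n := (one_mul _).symm
        _ ≤ M * max 1 n := Nat.mul_le_mul_right _ hM
  exact h1

theorem psi_pos (hq : S_Q1) (n : ℕ) (e : Edg) (s : ℕ) : 0 < psi n e s := by
  unfold psi
  exact (hq.2.1 n (pos e) 1 (cap n s) le_rfl (cap_pos n s)).1

theorem psi_anti (hq : S_Q1) (n : ℕ) (e : Edg) {s s' : ℕ} (h : s ≤ s') :
    psi n e s' ≤ psi n e s := by
  have h1 := hq.1 n (pos e) 1 (cap n s) (cap n s') le_rfl (cap_pos n s) (cap_mono h)
  have h2 := (hq.2.1 n (pos e) (cap n s) (cap n s') (cap_pos n s) (cap_mono h)).2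
  have h3 := psi_pos hq n e s
  unfold psi at h3 ⊢
  rw [← h1]
  exact mul_le_of_le_one_right h3.le h2

theorem psi_le (hq : S_Q1) (n : ℕ) (e : Edg) {s s' M : ℕ} (h : s ≤ s') (hM : 1 ≤ M)
    (h' : s' ≤ M * max 1 s) : psi n e s ≤ (M : ℝ) ^ 2 * psi n e s' := by
  have h1 := hq.1 n (pos e) 1 (cap n s) (cap n s') le_rfl (cap_pos n s) (cap_mono h)
  have h2 := hq.2.2.1 n (pos e) (cap n s) (cap n s') M (cap_pos n s) (cap_mono h) hM
    (cap_mul hM h')
  have h3 := psi_pos hq n e s
  unfold psi at h3 ⊢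
  rw [← h1]
  calc q1 n (pos e) 1 (cap n s) = q1 n (pos e) 1 (cap n s) * 1 := (mul_one _).symm
    _ ≤ q1 n (pos e) 1 (cap n s) * ((M : ℝ) ^ 2 * q1 n (pos e) (cap n s) (cap n s')) :=
        mul_le_mul_of_nonneg_left h2 h3.le
    _ = _ := by ring

/-! ### START -/

theorem start (hq : S_Q1) : S_START := by
  refine ⟨4, by norm_num, ?_⟩
  intro a n t k R x ha hn _ _ hG
  obtain ⟨Ev, par, rk, g1, g2, g3, g4⟩ := hG
  refine ⟨Ev, par, rk, g1, g2, g3, g4.trans ?_⟩
  have hP : 0 ≤ ∏ y ∈ R.erase x, psi n y (ds y (par y)) :=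
    Finset.prod_nonneg fun y _ => (psi_pos hq n y _).le
  have h1 : psi n x (max t (dm R)) ≤ 4 * psi n x (max (t + 1) (dm R)) := by
    have h2 := psi_le hq n x (s := max t (dm R)) (s' := max (t + 1) (dm R)) (M := 2) (by omega)
      (by norm_num) (by omega)
    norm_num at h2
    exact h2
  have h2 := psi_pos hq n x (max (t + 1) (dm R))
  have h3 : psi n x (max t (dm R)) ≤ a * psi n x (max (t + 1) (dm R)) :=
    h1.trans (mul_le_mul_of_nonneg_right ha h2.le)
  have ha0 : 0 ≤ a := by linarith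
  calc a ^ k * (∏ y ∈ R.erase x, psi n y (ds y (par y))) * psi n x (max t (dm R))
      ≤ a ^ k * (∏ y ∈ R.erase x, psi n y (ds y (par y))) *
          (a * psi n x (max (t + 1) (dm R))) :=
        mul_le_mul_of_nonneg_left h3 (mul_nonneg (pow_nonneg ha0 _) hP)
    _ = _ := by ring

/-! ### MERGE -/

theorem num (hq : S_Q1) {n t : ℕ} {U R : Finset Edg} {x b u : Edg} (hn : 1 ≤ n) (htn : t < n)
    (hUb : U ⊆ boxE n) (hRb : R ⊆ boxE n) (hx : x ∈ U) (hu : u ∈ U) (hb : b ∈ R)
    (hbu : ds b u ≤ t + 1) :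
    psi n x (max (t + 1) (dm U)) * psi n b (max t (dm R)) ≤
      72 * (psi n b (t + 1) * psi n x (max (t + 1) (dm (U ∪ R)))) := by
  have hUR : dm U ≤ dm (U ∪ R) := dm_mono Finset.subset_union_left
  have hRR : dm R ≤ dm (U ∪ R) := dm_mono Finset.subset_union_right
  have hle : dm (U ∪ R) ≤ dm U + dm R + (t + 1) := by
    apply dm_le
    have hcross : ∀ v ∈ U, ∀ w ∈ R, ds v w ≤ dm U + dm R + (t + 1) := by
      intro v hv w hw
      have h1 := ds_tri v u w
      have h2 := ds_tri u b w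
      have h3 := ds_le_dm hv hu
      have h4 := ds_le_dm hb hw
      have h5 := ds_comm b u
      omega
    intro v hv w hw
    rcases Finset.mem_union.1 hv with hv | hv <;> rcases Finset.mem_union.1 hw with hw | hw
    · have := ds_le_dm hv hw
      omega
    · exact hcross v hv w hw
    · rw [ds_comm]
      exact hcross w hw v hv
    · have := ds_le_dm hv hw
      omega
  have p1 := psi_pos hq n x (max (t + 1) (dm U))
  have p2 := psi_pos hq n b (t + 1)
  have p3 := psi_pos hq n x (max (t + 1) (dm (U ∪ R)))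
  rcases le_or_gt (dm R) (max (t + 1) (dm U)) with hc | hc
  · have h1 : psi n x (max (t + 1) (dm U)) ≤ 9 * psi n x (max (t + 1) (dm (U ∪ R))) := by
      have h2 := psi_le hq n x (s := max (t + 1) (dm U)) (s' := max (t + 1) (dm (U ∪ R)))
        (M := 3) (by omega) (by norm_num) (by omega)
      norm_num at h2
      exact h2
    have h2 : psi n b (max t (dm R)) ≤ 4 * psi n b (t + 1) := by
      refine (psi_anti hq n b (le_max_left t (dm R))).trans ?_
      have h2 := psi_le hq n b (s := t) (s' := t + 1) (M := 2) (by omega) (by norm_num)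
        (by omega)
      norm_num at h2
      exact h2
    have p4 := psi_pos hq n b (max t (dm R))
    calc psi n x (max (t + 1) (dm U)) * psi n b (max t (dm R))
        ≤ (9 * psi n x (max (t + 1) (dm (U ∪ R)))) * (4 * psi n b (t + 1)) :=
          mul_le_mul h1 h2 p4.le (by positivity)
      _ = 36 * (psi n b (t + 1) * psi n x (max (t + 1) (dm (U ∪ R)))) := by ring
      _ ≤ 72 * (psi n b (t + 1) * psi n x (max (t + 1) (dm (U ∪ R)))) :=
          mul_le_mul_of_nonneg_right (by norm_num) (by positivity)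
  · have hs : max t (dm R) = dm R := by omega
    rw [hs]
    set c0 := cap n (t + 1) with hc0
    set c1 := cap n (max (t + 1) (dm U)) with hc1
    set c2 := cap n (dm R) with hc2
    have h01 : c0 ≤ c1 := cap_mono (le_max_left _ _)
    have h12 : c1 ≤ c2 := cap_mono hc.le
    have hc0p : 1 ≤ c0 := cap_pos _ _
    have hc1p : 1 ≤ c1 := cap_pos _ _
    -- psi at `b`
    have e1 : psi n b (dm R) ≤ psi n b (t + 1) * q1 n (pos b) c1 c2 := by
      have e2 := hq.1 n (pos b) 1 c0 c2 le_rfl hc0p (h01.trans h12)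
      have e3 := hq.1 n (pos b) c0 c1 c2 hc0p h01 h12
      have e4 := (hq.2.1 n (pos b) c0 c1 hc0p h01).2
      have e5 := (hq.2.1 n (pos b) c1 c2 hc1p h12).1
      unfold psi at p2 ⊢
      rw [← hc2, ← hc0, ← e2, ← e3]
      rw [← hc0] at p2
      exact mul_le_mul_of_nonneg_left (mul_le_of_le_one_left e5.le e4) p2.le
    have hdist : ds b x ≤ 2 * max (t + 1) (dm U) := by
      have h1 := ds_tri b u x
      have h2 := ds_le_dm hu hx
      omega
    have e2 : q1 n (pos b) c1 c2 ≤ 8 * q1 n (pos x) c1 c2 := by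
      have b1 := box_abs (hRb hb)
      have b2 := box_abs (hUb hx)
      have b3 := pos_sub b x
      rw [abs_le, abs_le] at b1 b2 b3
      have b4 : (c1 : ℤ) = max 1 (min (max (t + 1 : ℤ) (dm U)) n) := by
        rw [hc1]
        unfold cap
        push_cast
        rfl
      have b5 : (ds b x : ℤ) ≤ 2 * max (t + 1 : ℤ) (dm U) := by exact_mod_cast hdist
      have htn' : (t : ℤ) < n := by exact_mod_cast htn
      apply hq.2.2.2 n (pos b) (pos x) c1 c2 hc1p h12
      · rw [abs_le, b4]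
        omega
      · rw [abs_le, b4]
        omega
    have e3 : psi n x (max (t + 1) (dm U)) * q1 n (pos x) c1 c2 = psi n x (dm R) := by
      unfold psi
      rw [← hc1, ← hc2]
      exact hq.1 n (pos x) 1 c1 c2 le_rfl hc1p h12
    have e4 : psi n x (dm R) ≤ 9 * psi n x (max (t + 1) (dm (U ∪ R))) := by
      have h2 := psi_le hq n x (s := dm R) (s' := max (t + 1) (dm (U ∪ R)))
        (M := 3) (by omega) (by norm_num) (by omega)
      norm_num at h2
      exact h2
    calc psi n x (max (t + 1) (dm U)) * psi n b (dm R)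
        ≤ psi n x (max (t + 1) (dm U)) * (psi n b (t + 1) * (8 * q1 n (pos x) c1 c2)) :=
          mul_le_mul_of_nonneg_left (e1.trans (mul_le_mul_of_nonneg_left e2 p2.le)) p1.le
      _ = 8 * psi n b (t + 1) * (psi n x (max (t + 1) (dm U)) * q1 n (pos x) c1 c2) := by ring
      _ = 8 * psi n b (t + 1) * psi n x (dm R) := by rw [e3]
      _ ≤ 8 * psi n b (t + 1) * (9 * psi n x (max (t + 1) (dm (U ∪ R)))) :=
          mul_le_mul_of_nonneg_left e4 (by positivity)
      _ = _ := by ring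

theorem arith {a A B PU PR ψx ψb ψt ψs : ℝ} {k k' : ℕ} (ha : 0 ≤ a) (hPU : 0 ≤ PU)
    (hPR : 0 ≤ PR) (hA : A ≤ a ^ k * PU * ψx) (hB : B ≤ a ^ k' * PR * ψb) (hB0 : 0 ≤ B)
    (hψx : 0 ≤ ψx) (h2 : ψx * ψb ≤ a * (ψt * ψs)) :
    A * B ≤ a ^ (k + k' + 1) * (PU * (ψt * PR)) * ψs := by
  calc A * B ≤ (a ^ k * PU * ψx) * (a ^ k' * PR * ψb) :=
        mul_le_mul hA hB hB0 (mul_nonneg (mul_nonneg (pow_nonneg ha _) hPU) hψx)
    _ = (a ^ k * a ^ k' * (PU * PR)) * (ψx * ψb) := by ring
    _ ≤ (a ^ k * a ^ k' * (PU * PR)) * (a * (ψt * ψs)) :=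
        mul_le_mul_of_nonneg_left h2 (mul_nonneg (mul_nonneg (pow_nonneg ha _)
          (pow_nonneg ha _)) (mul_nonneg hPU hPR))
    _ = _ := by ring

theorem merge (hq : S_Q1) : S_MERGE := by
  classical
  refine ⟨72, by norm_num, ?_⟩
  intro a n t k k' U R x b u ha hn htn hUb hRb hx hu hb hbu hsep hGU hGR
  obtain ⟨EvU, parU, rkU, u1, u2, u3, u4⟩ := hGU
  obtain ⟨EvR, parR, rkR, r1, r2, r3, r4⟩ := hGR
  have ha0 : 0 ≤ a := by linarith
  -- disjointness
  have hdis : ∀ y, y ∈ U → y ∈ R → False := by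
    intro y hy hy'
    have := hsep y hy y hy'
    rw [ds_self] at this
    omega
  have hnbU : ∀ f, f ∈ nb U (t / 2) → f ∉ R := by
    intro f hf hfR
    obtain ⟨v, hv, hfv⟩ := ds_of_nb hf
    have h1 := hsep v hv f hfR
    rw [ds_comm] at h1
    omega
  have hnbR : ∀ f, f ∈ nb R (t / 2) → f ∉ U := by
    intro f hf hfU
    obtain ⟨w, hw, hfw⟩ := ds_of_nb hf
    have h1 := hsep f hfU w hw
    omega
  have hnb : ∀ f, f ∈ nb U (t / 2) → f ∈ nb R (t / 2) → False := by
    intro f hf hf'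
    obtain ⟨v, hv, hfv⟩ := ds_of_nb hf
    obtain ⟨w, hw, hfw⟩ := ds_of_nb hf'
    have h1 := hsep v hv w hw
    have h2 := ds_tri v f w
    rw [ds_comm v f] at h2
    omega
  have hsubU : nb U (t / 2) \ U ⊆ nb (U ∪ R) (t / 2) \ (U ∪ R) := by
    intro f hf
    obtain ⟨h1, h2⟩ := Finset.mem_sdiff.1 hf
    refine Finset.mem_sdiff.2 ⟨?_, ?_⟩
    · exact Finset.biUnion_subset_biUnion_of_subset_left _ Finset.subset_union_left h1
    · rw [Finset.mem_union, not_or]
      exact ⟨h2, hnbU f h1⟩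
  have hsubR : nb R (t / 2) \ R ⊆ nb (U ∪ R) (t / 2) \ (U ∪ R) := by
    intro f hf
    obtain ⟨h1, h2⟩ := Finset.mem_sdiff.1 hf
    refine Finset.mem_sdiff.2 ⟨?_, ?_⟩
    · exact Finset.biUnion_subset_biUnion_of_subset_left _ Finset.subset_union_right h1
    · rw [Finset.mem_union, not_or]
      exact ⟨hnbR f h1, h2⟩
  have hrestr : ∀ (A B F F' : Finset Edg), A ⊆ B → F ∩ B = F' ∩ B → F ∩ A = F' ∩ A := by
    intro A B F F' hAB h
    rw [← Finset.inter_eq_right.2 hAB, ← Finset.inter_assoc, h, Finset.inter_assoc]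
  refine ⟨fun F => EvU F ∧ EvR F, fun y => if y ∈ U then parU y else if y = b then u else parR y,
    fun y => if y ∈ U then rkU y else rkR y + rkU u + 1, ?_, ?_, ?_, ?_⟩
  · intro F F' h
    show (EvU F ∧ EvR F) ↔ (EvU F' ∧ EvR F')
    rw [u1 F F' (hrestr _ _ F F' hsubU h), r1 F F' (hrestr _ _ F F' hsubR h)]
  · intro S' hS' hS'b hfar F hF hQ
    refine ⟨u2 S' (Finset.subset_union_left.trans hS') hS'b ?_ F hF hQ,
      r2 S' (Finset.subset_union_right.trans hS') hS'b ?_ F hF hQ⟩
    · intro v hv w hw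
      obtain ⟨hw1, hw2⟩ := Finset.mem_sdiff.1 hw
      by_cases hwR : w ∈ R
      · exact hsep v hv w hwR
      · refine hfar v (Finset.mem_union_left _ hv) w (Finset.mem_sdiff.2 ⟨hw1, ?_⟩)
        rw [Finset.mem_union, not_or]
        exact ⟨hw2, hwR⟩
    · intro v hv w hw
      obtain ⟨hw1, hw2⟩ := Finset.mem_sdiff.1 hw
      by_cases hwU : w ∈ U
      · rw [ds_comm]
        exact hsep w hwU v hv
      · refine hfar v (Finset.mem_union_right _ hv) w (Finset.mem_sdiff.2 ⟨hw1, ?_⟩)
        rw [Finset.mem_union, not_or]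
        exact ⟨hwU, hw2⟩
  · intro y hy hyx
    simp only
    by_cases hyU : y ∈ U
    · obtain ⟨h1, h2, h3⟩ := u3 y hyU hyx
      rw [if_pos hyU, if_pos hyU, if_pos h1]
      exact ⟨Finset.mem_union_left _ h1, h2, h3⟩
    · have hyR : y ∈ R := (Finset.mem_union.1 hy).resolve_left hyU
      rw [if_neg hyU, if_neg hyU]
      by_cases hyb : y = b
      · rw [if_pos hyb, if_pos hu, hyb]
        exact ⟨Finset.mem_union_left _ hu, by omega, hbu⟩
      · obtain ⟨h1, h2, h3⟩ := r3 y hyR hyb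
        rw [if_neg hyb, if_neg (fun h => hdis _ h h1)]
        exact ⟨Finset.mem_union_right _ h1, by omega, h3⟩
  · have hind : PQ (1 / 2) (boxE n) (fun F => EvU F ∧ EvR F) =
        PQ (1 / 2) (boxE n) EvU * PQ (1 / 2) (boxE n) EvR := by
      refine Pr_indep (S := (nb U (t / 2) \ U) ∩ boxE n) (T := (nb R (t / 2) \ R) ∩ boxE n)
        Finset.inter_subset_right Finset.inter_subset_right ?_ ?_ ?_
      · rw [Finset.disjoint_left]
        intro f hf hf'
        exact hnb f (Finset.mem_sdiff.1 (Finset.mem_inter.1 hf).1).1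
          (Finset.mem_sdiff.1 (Finset.mem_inter.1 hf').1).1
      · intro F hF
        apply u1
        ext f
        simp only [Finset.mem_inter]
        constructor
        · rintro ⟨h1, h2⟩
          exact ⟨⟨h1, h2, hF h1⟩, h2⟩
        · rintro ⟨⟨h1, -, -⟩, h2⟩
          exact ⟨h1, h2⟩
      · intro F hF
        apply r1
        ext f
        simp only [Finset.mem_inter]
        constructor
        · rintro ⟨h1, h2⟩
          exact ⟨⟨h1, h2, hF h1⟩, h2⟩
        · rintro ⟨⟨h1, -, -⟩, h2⟩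
          exact ⟨h1, h2⟩
    rw [hind]
    have hbU : b ∉ U := fun h => hdis b h hb
    have hxR : x ∉ R := fun h => hdis x hx h
    have hds : ds b u = t + 1 := by
      have h1 := hsep u hu b hb
      rw [ds_comm] at h1
      omega
    have hprod : ∏ y ∈ (U ∪ R).erase x,
        psi n y (ds y (if y ∈ U then parU y else if y = b then u else parR y)) =
        (∏ y ∈ U.erase x, psi n y (ds y (parU y))) * (psi n b (t + 1) *
          ∏ y ∈ R.erase b, psi n y (ds y (parR y))) := by
      have e1 : (U ∪ R).erase x = U.erase x ∪ R := by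
        rw [Finset.erase_union_distrib, Finset.erase_eq_of_notMem hxR]
      have e2 : Disjoint (U.erase x) R := by
        rw [Finset.disjoint_left]
        intro y hy hy'
        exact hdis y (Finset.mem_of_mem_erase hy) hy'
      rw [e1, Finset.prod_union e2, ← Finset.mul_prod_erase R _ hb]
      congr 1
      · refine Finset.prod_congr rfl fun y hy => ?_
        rw [if_pos (Finset.mem_of_mem_erase hy)]
      · congr 1
        · rw [if_neg hbU, if_pos rfl, hds]
        · refine Finset.prod_congr rfl fun y hy => ?_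
          rw [if_neg (fun h => hdis y h (Finset.mem_of_mem_erase hy)),
            if_neg (Finset.ne_of_mem_erase hy)]
    rw [hprod]
    have hPU : 0 ≤ ∏ y ∈ U.erase x, psi n y (ds y (parU y)) :=
      Finset.prod_nonneg fun y _ => (psi_pos hq n y _).le
    have hPR : 0 ≤ ∏ y ∈ R.erase b, psi n y (ds y (parR y)) :=
      Finset.prod_nonneg fun y _ => (psi_pos hq n y _).le
    have hPr0 : 0 ≤ PQ (1 / 2) (boxE n) EvR := Pr_nonneg (okq (by norm_num) (by norm_num)) _ _
    have h1 := num hq hn htn hUb hRb hx hu hb hbu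
    have p2 := psi_pos hq n b (t + 1)
    have p3 := psi_pos hq n x (max (t + 1) (dm (U ∪ R)))
    have p4 := psi_pos hq n x (max (t + 1) (dm U))
    have h2 : psi n x (max (t + 1) (dm U)) * psi n b (max t (dm R)) ≤
        a * (psi n b (t + 1) * psi n x (max (t + 1) (dm (U ∪ R)))) :=
      h1.trans (mul_le_mul_of_nonneg_right ha (by positivity))
    exact arith ha0 hPU hPR u4 r4 hPr0 p4.le h2

end Pool.Agent.Y430.NE
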